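import Mathlib
import Pool.Agent.X65.PR2

/-!
# Projective rectangles: every special section of a plane is shared with another plane

The definitions (`Rect`, `IsProjPlane`, `Rect.Nontriv`, `Rect.linesOf`, `Rect.IsSubplane`,
`Rect.IsPlane`) are in `Pool/Agent/X65/PR.lean`.
-/

set_option autoImplicit false

universe u

namespace Pool.Agent.Results.MP_81f70c_co.SharedSection

open Pool.Agent.X65.PR

/-- (1) In a nontrivial projective rectangle, for every plane `π` and every special line `s` there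
is another plane `π'` with `s ∩ π' = s ∩ π`, and this set is a line of `π'`.
(2) In every projective rectangle, for every plane `π` and special line `s`, each point off `s`
lies in exactly one plane `π'` with `s ∩ π' = s ∩ π`.
(3) In every projective rectangle, two planes with two common ordinary points on a special line
`s` have the same section with `s`. -/
theorem result :
    (∀ {P : Type u} (R : Rect P), R.Nontriv → ∀ π, R.IsPlane π → ∀ s ∈ R.lines, R.D ∈ s →
      ∃ π', R.IsPlane π' ∧ π' ≠ π ∧ s ∩ π' = s ∩ π ∧ s ∩ π ∈ R.linesOf π') ∧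
    (∀ {P : Type u} (R : Rect P), ∀ π, R.IsPlane π → ∀ s ∈ R.lines, R.D ∈ s → ∀ z ∉ s,
      ∃! π', R.IsPlane π' ∧ z ∈ π' ∧ s ∩ π' = s ∩ π) ∧
    (∀ {P : Type u} (R : Rect P), ∀ π π', R.IsPlane π → R.IsPlane π' → ∀ s ∈ R.lines, R.D ∈ s →
      ∀ p p', p ≠ p' → p ≠ R.D → p' ≠ R.D → p ∈ s ∩ π ∩ π' → p' ∈ s ∩ π ∩ π' →
        s ∩ π = s ∩ π') := by
  refine ⟨?_, ?_, ?_⟩
  · intro P R hn π hπ s hs hD
    obtain ⟨z, hzπ, hzs⟩ := Rect.exists_off hn hπ hs hD
    obtain ⟨π', ⟨h1, h2, h3⟩, -⟩ := Rect.exists_unique_plane hπ hs hD hzs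
    refine ⟨π', h1, fun e => hzπ (e ▸ h2), h3, ?_⟩
    obtain ⟨p, p', hpp, pD, pD', ps, ps', p1, p1'⟩ := (Rect.isPlane_iff.1 hπ).two_special hs hD
    exact ⟨s, hs, h3.symm, p, ⟨ps, p1⟩, p', ⟨ps', p1'⟩, hpp⟩
  · intro P R π hπ s hs hD z hz
    exact Rect.exists_unique_plane hπ hs hD hz
  · intro P R π π' hπ hπ' s hs hD p p' hpp hp hp' h1 h2
    exact Rect.section_eq hπ hπ' hs hD hpp hp hp' h1 h2

end Pool.Agent.Results.MP_81f70c_co.SharedSection
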